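import Mathlib
import Pool.Agent.X25.DE.Core

/-! The diagonal Moebius-twisted Elliott-Halberstam estimate holds, at every level `N^θ` with `θ < 1`,
for all `N` outside a set with `O(X / (log X)^B)` elements up to `X`, for every `B`. -/

set_option autoImplicit false

namespace Pool.Agent.Results.MP_e9eb55_nt.AlmostAll
open Finset ArithmeticFunction
open Pool.Agent.X25.DE
open Pool.Agent.H373R2.T7 (muR)
open Pool.Agent.TH935.LD (tau_pow_div)

/-- `g₁ = μ` -/
noncomputable def g1 (m : ℕ) : ℝ := ((moebius m : ℤ) : ℝ)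

/-- `g₂ = μ log` -/
noncomputable def g2 (m : ℕ) : ℝ := ((moebius m : ℤ) : ℝ) * Real.log m

/-- `D_g(N;θ)`, as in the problem -/
noncomputable def D (g : ℕ → ℝ) (N : ℕ) (θ : ℝ) : ℝ :=
  ∑ q ∈ (Icc 1 ⌊(N : ℝ) ^ θ⌋₊).filter (fun q => q.Coprime N),
    |∑ n ∈ (Ico 1 N).filter (fun n => n ≡ N [MOD q]), vonMangoldt n * g (N - n) -
      1 / (Nat.totient q : ℝ) * ∑ n ∈ Ico 1 N, vonMangoldt n * g (N - n)|

/-- the maximal sum: all moduli `q ≤ N^θ`, the maximum over the initial segments `n ≤ y`, nothing subtracted -/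
noncomputable def DMax (g : ℕ → ℝ) (N : ℕ) (θ : ℝ) : ℝ :=
  ∑ q ∈ Icc 1 ⌊(N : ℝ) ^ θ⌋₊, (range (N + 1)).sup' ⟨0, by simp⟩
    (fun y => |∑ n ∈ (Ico 1 N).filter (fun n => n ≤ y ∧ n ≡ N [MOD q]), vonMangoldt n * g (N - n)|)

/-- partial summation -/
lemma abel (c w : ℕ → ℝ) (M : ℕ) :
    ∑ m ∈ Icc 1 M, c m * w m = w M * (∑ m ∈ Icc 1 M, c m) -
      ∑ j ∈ range M, (w (j + 1) - w j) * ∑ m ∈ Icc 1 j, c m := by
  induction M with
  | zero => simp
  | succ M ih =>
    rw [sum_Icc_succ_top (by omega), sum_Icc_succ_top (by omega), sum_range_succ, ih]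
    ring

lemma abel_le (c w : ℕ → ℝ) (M : ℕ) (K W : ℝ) (hK : ∀ j ≤ M, |∑ m ∈ Icc 1 j, c m| ≤ K) (h0 : 0 ≤ w 0)
    (hw : Monotone w) (hW : w M ≤ W) :
    |∑ m ∈ Icc 1 M, c m * w m| ≤ 2 * W * K := by
  have hK0 : 0 ≤ K := (abs_nonneg _).trans (hK 0 (Nat.zero_le _))
  have hwM : 0 ≤ w M := h0.trans (hw (Nat.zero_le _))
  rw [abel]
  refine (abs_sub _ _).trans ?_
  have h1 : |w M * ∑ m ∈ Icc 1 M, c m| ≤ W * K := by
    rw [abs_mul, abs_of_nonneg hwM]
    exact mul_le_mul hW (hK M le_rfl) (abs_nonneg _) (hwM.trans hW)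
  have h2 : |∑ j ∈ range M, (w (j + 1) - w j) * ∑ m ∈ Icc 1 j, c m| ≤ W * K := by
    refine (abs_sum_le_sum_abs _ _).trans ?_
    calc ∑ j ∈ range M, |(w (j + 1) - w j) * ∑ m ∈ Icc 1 j, c m| ≤ ∑ j ∈ range M, (w (j + 1) - w j) * K := by
          refine sum_le_sum fun j hj => ?_
          rw [mem_range] at hj
          have h3 : 0 ≤ w (j + 1) - w j := sub_nonneg.2 (hw (Nat.le_succ j))
          rw [abs_mul, abs_of_nonneg h3]
          exact mul_le_mul_of_nonneg_left (hK j hj.le) h3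
      _ = (w M - w 0) * K := by rw [← sum_mul, sum_range_sub]
      _ ≤ W * K := mul_le_mul_of_nonneg_right (by linarith) hK0
  linarith

/-- the diagonal sums in terms of `T` -/
lemma S_le (w : ℕ → ℝ) (hw : Monotone w) (h0 : 0 ≤ w 0) (W : ℝ) (q N y : ℕ) (_hq : 0 < q) (hW : w N ≤ W) :
    |∑ n ∈ (Ico 1 N).filter (fun n => n ≤ y ∧ n ≡ N [MOD q]), vonMangoldt n * (muR (N - n) * w (N - n))| ≤
      4 * W * TM q N := by
  set c : ℕ → ℝ := fun m => if N ≤ m + y ∧ q ∣ m then muR m * vonMangoldt (N - m) else 0 with hc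
  have e1 : ∑ n ∈ (Ico 1 N).filter (fun n => n ≤ y ∧ n ≡ N [MOD q]), vonMangoldt n * (muR (N - n) * w (N - n)) =
      ∑ m ∈ Icc 1 (N - 1), c m * w m := by
    have e2 : ∑ m ∈ Icc 1 (N - 1), c m * w m =
        ∑ m ∈ (Icc 1 (N - 1)).filter (fun m => N ≤ m + y ∧ q ∣ m), muR m * vonMangoldt (N - m) * w m := by
      rw [sum_filter]
      refine sum_congr rfl fun m _ => ?_
      rw [hc]
      dsimp only
      split_ifs <;> simp
    rw [e2]
    refine sum_nbij' (fun n => N - n) (fun m => N - m) ?_ ?_ ?_ ?_ ?_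
    · intro n hn
      simp only [mem_filter, mem_Ico] at hn
      simp only [mem_filter, mem_Icc]
      refine ⟨by omega, by omega, ?_⟩
      exact (Nat.modEq_iff_dvd' (by omega)).1 hn.2.2
    · intro m hm
      simp only [mem_filter, mem_Icc] at hm
      simp only [mem_filter, mem_Ico]
      refine ⟨by omega, by omega, ?_⟩
      apply (Nat.modEq_iff_dvd' (by omega)).2
      have : N - (N - m) = m := by omega
      rw [this]
      exact hm.2.2
    · intro n hn
      simp only [mem_filter, mem_Ico] at hn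
      omega
    · intro m hm
      simp only [mem_filter, mem_Icc] at hm
      omega
    · intro n hn
      simp only [mem_filter, mem_Ico] at hn
      have : N - (N - n) = n := by omega
      rw [this]
      ring
  rw [e1]
  have hC : ∀ j ≤ N - 1, |∑ m ∈ Icc 1 j, c m| ≤ 2 * TM q N := by
    intro j hj
    rcases le_or_gt (N - y - 1) j with h | h
    · have e3 : ∑ m ∈ Icc 1 j, c m = T q N j - T q N (N - y - 1) := by
        rw [eq_sub_iff_add_eq]
        have e4 : ∑ m ∈ Icc 1 j, c m = ∑ m ∈ (Icc 1 (N - 1)).filter (fun m => (m ≤ j ∧ N ≤ m + y) ∧ q ∣ m), muR m * vonMangoldt (N - m) := by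
          have e5 : (Icc 1 (N - 1)).filter (fun m => (m ≤ j ∧ N ≤ m + y) ∧ q ∣ m) = (Icc 1 j).filter (fun m => N ≤ m + y ∧ q ∣ m) := by
            ext m
            simp only [mem_filter, mem_Icc]
            constructor
            · rintro ⟨h1, ⟨h2, h3⟩, h4⟩
              exact ⟨by omega, h3, h4⟩
            · rintro ⟨h1, h2, h3⟩
              exact ⟨by omega, ⟨by omega, h2⟩, h3⟩
          rw [e5, sum_filter]
        rw [e4]
        unfold T
        rw [← sum_union]
        · apply sum_congr _ fun _ _ => rfl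
          ext m
          simp only [mem_filter, mem_union, mem_Icc]
          constructor
          · rintro (⟨h1, ⟨h2, h3⟩, h4⟩ | ⟨h1, h2, h3⟩)
            · exact ⟨h1, h2, h4⟩
            · exact ⟨h1, by omega, h3⟩
          · rintro ⟨h1, h2, h3⟩
            rcases le_or_gt N (m + y) with h4 | h4
            · left; exact ⟨h1, ⟨h2, h4⟩, h3⟩
            · right; exact ⟨h1, by omega, h3⟩
        · rw [disjoint_left]
          intro m hm hm'
          simp only [mem_filter, mem_Icc] at hm hm'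
          omega
      rw [e3]
      refine (abs_sub _ _).trans ?_
      have := T_le_TM q N j
      have := T_le_TM q N (N - y - 1)
      linarith
    · have e3 : ∑ m ∈ Icc 1 j, c m = 0 := by
        apply sum_eq_zero
        intro m hm
        rw [mem_Icc] at hm
        rw [hc]
        dsimp only
        rw [if_neg]
        rintro ⟨h1, _⟩
        omega
      rw [e3, abs_zero]
      have := TM_nonneg q N
      linarith
  have hWN : w (N - 1) ≤ W := (hw (Nat.sub_le _ _)).trans hW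
  refine (abel_le c w (N - 1) (2 * TM q N) W hC h0 hw hWN).trans (le_of_eq ?_)
  ring

/-- weights -/
lemma g_cases (g : ℕ → ℝ) (hg : g = g1 ∨ g = g2) :
    ∃ w : ℕ → ℝ, Monotone w ∧ 0 ≤ w 0 ∧ (∀ N : ℕ, w N ≤ 1 + Real.log N) ∧ ∀ m, g m = muR m * w m := by
  rcases hg with rfl | rfl
  · refine ⟨fun _ => 1, monotone_const, zero_le_one, fun N => ?_, fun m => ?_⟩
    · have := Real.log_natCast_nonneg N
      linarith
    · unfold g1 muR; simp
  · refine ⟨fun m => Real.log m, ?_, ?_, fun N => by linarith, fun m => ?_⟩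
    · apply monotone_nat_of_le_succ
      intro n
      rcases Nat.eq_zero_or_pos n with rfl | h
      · simp
      · apply Real.log_le_log (by exact_mod_cast h)
        push_cast; linarith
    · simp
    · unfold g2 muR; rfl

lemma S_g_le (g : ℕ → ℝ) (hg : g = g1 ∨ g = g2) (q N y : ℕ) (hq : 0 < q) :
    |∑ n ∈ (Ico 1 N).filter (fun n => n ≤ y ∧ n ≡ N [MOD q]), vonMangoldt n * g (N - n)| ≤
      4 * (1 + Real.log N) * TM q N := by
  obtain ⟨w, h1, h2, h3, h4⟩ := g_cases g hg
  simp only [h4]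
  exact S_le w h1 h2 (1 + Real.log N) q N y hq (h3 N)

lemma S_g_le' (g : ℕ → ℝ) (hg : g = g1 ∨ g = g2) (q N : ℕ) (hq : 0 < q) :
    |∑ n ∈ (Ico 1 N).filter (fun n => n ≡ N [MOD q]), vonMangoldt n * g (N - n)| ≤
      4 * (1 + Real.log N) * TM q N := by
  have h := S_g_le g hg q N N hq
  have e : (Ico 1 N).filter (fun n => n ≤ N ∧ n ≡ N [MOD q]) = (Ico 1 N).filter (fun n => n ≡ N [MOD q]) := by
    apply filter_congr
    intro n hn
    rw [mem_Ico] at hn
    constructor
    · rintro ⟨_, h⟩; exact h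
    · intro h; exact ⟨by omega, h⟩
  rwa [e] at h

lemma inv_phi_sum (X : ℕ) (Q : ℕ) (h : Q ≤ X) : ∑ q ∈ Icc 1 Q, 1 / (Nat.totient q : ℝ) ≤ (1 + Real.log X) ^ 2 := by
  have h2 := tau_pow_div 1 X
  simp only [pow_one] at h2
  have h3 : ∑ q ∈ Icc 1 Q, 1 / (Nat.totient q : ℝ) ≤ ∑ q ∈ Icc 1 X, (q.divisors.card : ℝ) / q := by
    refine (sum_le_sum_of_subset_of_nonneg (Icc_subset_Icc_right h) (fun _ _ _ => by positivity)).trans ?_
    refine sum_le_sum fun q hq => ?_
    rw [mem_Icc] at hq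
    have h1 : q ≤ q.divisors.card * Nat.totient q := by
      calc q = ∑ d ∈ q.divisors, Nat.totient d := (Nat.sum_totient q).symm
        _ ≤ ∑ d ∈ q.divisors, Nat.totient q := by
            apply sum_le_sum
            intro d hd
            exact Nat.le_of_dvd (Nat.totient_pos.2 (by omega)) (Nat.totient_dvd_of_dvd (Nat.dvd_of_mem_divisors hd))
        _ = _ := by rw [sum_const, smul_eq_mul]
    have hφ : (0 : ℝ) < Nat.totient q := by exact_mod_cast Nat.totient_pos.2 (by omega)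
    have hq0 : (0 : ℝ) < q := by exact_mod_cast (by omega : 0 < q)
    rw [div_le_div_iff₀ hφ hq0, one_mul]
    exact_mod_cast h1
  exact h3.trans h2

/-- the maximal sums up to `N^(1 - 1/(k+2))` -/
noncomputable def SS (k N : ℕ) : ℝ := ∑ q ∈ Icc 1 ⌊(N : ℝ) ^ (1 - 1 / ((k : ℝ) + 2))⌋₊, TM q N

lemma SS_mono {k l N : ℕ} (hkl : k ≤ l) (hN : 1 ≤ N) : SS k N ≤ SS l N := by
  unfold SS
  apply sum_le_sum_of_subset_of_nonneg
  · apply Icc_subset_Icc_right
    apply Nat.floor_le_floor
    apply Real.rpow_le_rpow_of_exponent_le (by exact_mod_cast hN)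
    have h1 : (k : ℝ) ≤ l := by exact_mod_cast hkl
    have h2 : 1 / ((l : ℝ) + 2) ≤ 1 / ((k : ℝ) + 2) := by
      apply one_div_le_one_div_of_le (by positivity)
      linarith
    linarith
  · intro q _ _
    exact TM_nonneg q N

lemma count (k : ℕ) : ∃ X0 : ℕ, ∀ X : ℕ, X0 ≤ X →
    (((Icc 1 X).filter (fun N : ℕ => 3 ≤ N ∧ (N : ℝ) / Real.log N ^ k < SS k N)).card : ℝ) ≤ X / Real.log X ^ k := by
  have hδ : (0 : ℝ) < 1 / ((k : ℝ) + 2) := by positivity
  have hδ1 : 1 / ((k : ℝ) + 2) < 1 := by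
    rw [div_lt_one (by positivity)]
    have : (0 : ℝ) ≤ k := Nat.cast_nonneg _
    linarith
  obtain ⟨X0, h0⟩ := avg_max (3 * k + 2) (1 / ((k : ℝ) + 2)) hδ hδ1
  obtain ⟨X1, h1⟩ := ev_nat ((ev_log_ge 2).and (Filter.eventually_ge_atTop 1))
  refine ⟨max X0 X1, fun X hX => ?_⟩
  obtain ⟨hL, hX1⟩ := h1 X (by exact_mod_cast (le_max_right _ _).trans hX)
  have ha := h0 X ((le_max_left _ _).trans hX)
  set L := Real.log X with hLd
  have hL0 : 0 < L := by linarith
  have hL1 : 1 ≤ L := by linarith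
  have hXp : (0 : ℝ) < X := by linarith
  set Bad := (Icc 1 X).filter (fun N : ℕ => 3 ≤ N ∧ (N : ℝ) / Real.log N ^ k < SS k N) with hBad
  set z : ℝ := X / L ^ (k + 1) with hz
  have hz0 : 0 ≤ z := by positivity
  have hsplit : Bad ⊆ Icc 1 ⌊z⌋₊ ∪ Bad.filter (fun N : ℕ => z < (N : ℝ)) := by
    intro N hN
    rw [mem_union]
    rcases le_or_gt ((N : ℝ)) z with h | h
    · left
      rw [mem_Icc]
      have h2 := (mem_filter.1 hN).1
      rw [mem_Icc] at h2
      exact ⟨h2.1, Nat.le_floor h⟩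
    · right
      exact mem_filter.2 ⟨hN, h⟩
  have hcard : (Bad.card : ℝ) ≤ z + ((Bad.filter (fun N : ℕ => z < (N : ℝ))).card : ℝ) := by
    have h2 := (card_le_card hsplit).trans (card_union_le _ _)
    rw [Nat.card_Icc] at h2
    have h3 : (Bad.card : ℝ) ≤ ((⌊z⌋₊ + 1 - 1 : ℕ) : ℝ) + ((Bad.filter (fun N : ℕ => z < (N : ℝ))).card : ℝ) := by
      exact_mod_cast h2
    have h4 : ((⌊z⌋₊ + 1 - 1 : ℕ) : ℝ) ≤ z := by
      rw [Nat.add_sub_cancel]; exact Nat.floor_le hz0
    linarith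
  have hmark : ((Bad.filter (fun N : ℕ => z < (N : ℝ))).card : ℝ) * (X / L ^ (2 * k + 1)) ≤ (X : ℝ) ^ 2 / L ^ (3 * k + 2) := by
    refine le_trans ?_ ha
    have hsum : ∑ N ∈ Icc 1 X, ∑ q ∈ Icc 1 ⌊(X : ℝ) ^ (1 - 1 / ((k : ℝ) + 2))⌋₊, TM q N ≥
        ∑ _N ∈ Bad.filter (fun N : ℕ => z < (N : ℝ)), (X / L ^ (2 * k + 1)) := by
      calc ∑ _N ∈ Bad.filter (fun N : ℕ => z < (N : ℝ)), (X / L ^ (2 * k + 1))
          ≤ ∑ N ∈ Bad.filter (fun N : ℕ => z < (N : ℝ)), ∑ q ∈ Icc 1 ⌊(X : ℝ) ^ (1 - 1 / ((k : ℝ) + 2))⌋₊, TM q N := by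
            refine sum_le_sum fun N hN => ?_
            rw [mem_filter, hBad, mem_filter, mem_Icc] at hN
            obtain ⟨⟨⟨h1, h2⟩, h3, h4⟩, h5⟩ := hN
            have hN3 : (3 : ℝ) ≤ N := by exact_mod_cast h3
            have hlN : 1 ≤ Real.log N := by
              rw [Real.le_log_iff_exp_le (by linarith)]
              linarith [Real.exp_one_lt_three]
            have hlNX : Real.log N ≤ L := Real.log_le_log (by linarith) (by exact_mod_cast h2)
            have h6 : X / L ^ (2 * k + 1) ≤ (N : ℝ) / Real.log N ^ k := by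
              calc X / L ^ (2 * k + 1) = z / L ^ k := by
                    rw [hz, show 2 * k + 1 = (k + 1) + k by ring, pow_add, div_div]
                _ ≤ (N : ℝ) / Real.log N ^ k := by
                    apply div_le_div₀ (by linarith) h5.le (by positivity)
                    exact pow_le_pow_left₀ (by linarith) hlNX _
            refine h6.trans (h4.le.trans ?_)
            unfold SS
            apply sum_le_sum_of_subset_of_nonneg
            · apply Icc_subset_Icc_right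
              apply Nat.floor_le_floor
              apply Real.rpow_le_rpow (by linarith) (by exact_mod_cast h2)
              linarith
            · intro q _ _
              exact TM_nonneg q N
        _ ≤ _ := by
            apply sum_le_sum_of_subset_of_nonneg
            · exact (filter_subset _ _).trans (filter_subset _ _)
            · intro N _ _
              exact sum_nonneg fun q _ => TM_nonneg q N
    rw [sum_const, nsmul_eq_mul] at hsum
    exact hsum
  have hfin : ((Bad.filter (fun N : ℕ => z < (N : ℝ))).card : ℝ) ≤ X / L ^ (k + 1) := by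
    have h2 : (0 : ℝ) < X / L ^ (2 * k + 1) := by positivity
    rw [← le_div_iff₀ h2] at hmark
    refine hmark.trans (le_of_eq ?_)
    rw [show 3 * k + 2 = (2 * k + 1) + (k + 1) by ring, pow_add L (2 * k + 1) (k + 1)]
    field_simp
  have hend : z + X / L ^ (k + 1) ≤ X / L ^ k := by
    have e1 : z + X / L ^ (k + 1) = (X / L ^ k) * (2 / L) := by
      rw [hz, pow_succ]; field_simp; ring
    rw [e1]
    calc (X / L ^ k) * (2 / L) ≤ (X / L ^ k) * 1 := by
          apply mul_le_mul_of_nonneg_left _ (by positivity)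
          rw [div_le_one hL0]; exact hL
      _ = _ := mul_one _
  linarith

theorem result :
    ∃ E : Set ℕ,
      (∀ B : ℝ, 0 < B → ∃ X₀ : ℕ, ∀ X : ℕ, X₀ ≤ X →
        (((E ∩ Set.Icc 1 X).ncard : ℕ) : ℝ) ≤ (X : ℝ) * Real.log X ^ (-B)) ∧
      (∀ θ : ℝ, 0 < θ → θ < 1 → ∀ A : ℝ, 0 < A → ∀ g : ℕ → ℝ, (g = g1 ∨ g = g2) →
        ∃ N₀ : ℕ, ∀ N : ℕ, N₀ ≤ N → N ∉ E →
          D g N θ ≤ (N : ℝ) * Real.log N ^ (-A) ∧ DMax g N θ ≤ (N : ℝ) * Real.log N ^ (-A)) := by
  choose Y hY using count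
  set κ : ℕ → ℕ := fun N => Nat.findGreatest (fun k => Y k ≤ N ∧ 0 < k) N with hκ
  have hκmono : ∀ {M N : ℕ}, M ≤ N → κ M ≤ κ N := by
    intro M N h
    exact Nat.findGreatest_mono (fun k hk => ⟨hk.1.trans h, hk.2⟩) h
  have hκge : ∀ k N : ℕ, max (Y k) k ≤ N → k ≤ κ N := by
    intro k N h
    rcases Nat.eq_zero_or_pos k with rfl | hk
    · exact Nat.zero_le _
    · exact Nat.le_findGreatest ((le_max_right _ _).trans h) ⟨(le_max_left _ _).trans h, hk⟩
  have hκY : ∀ N : ℕ, 0 < κ N → Y (κ N) ≤ N := by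
    intro N h
    have := Nat.findGreatest_of_ne_zero (P := fun k => Y k ≤ N ∧ 0 < k) (n := N) (m := κ N) rfl h.ne'
    exact this.1
  refine ⟨{N | 3 ≤ N ∧ (N : ℝ) / Real.log N ^ (κ N) < SS (κ N) N}, ?_, ?_⟩
  · intro B hB
    set k : ℕ := ⌈B⌉₊ + 1 with hk
    refine ⟨max (max (Y k) k) 3, fun X hX => ?_⟩
    have hX1 : max (Y k) k ≤ X := (le_max_left _ _).trans hX
    have hX3 : 3 ≤ X := (le_max_right _ _).trans hX
    have hXr : (3 : ℝ) ≤ X := by exact_mod_cast hX3
    have hl1 : ∀ N : ℕ, 3 ≤ N → 1 ≤ Real.log N := by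
      intro N hN
      have hN3 : (3 : ℝ) ≤ N := by exact_mod_cast hN
      rw [Real.le_log_iff_exp_le (by linarith)]
      linarith [Real.exp_one_lt_three]
    have hL1 := hl1 X hX3
    set K := κ X with hK
    have hkK : k ≤ K := hκge k X hX1
    have hK0 : 0 < K := by omega
    have hcount := hY K X (hκY X hK0)
    have hsub : ({N | 3 ≤ N ∧ (N : ℝ) / Real.log N ^ (κ N) < SS (κ N) N} ∩ Set.Icc 1 X : Set ℕ) ⊆
        (((Icc 1 X).filter (fun N : ℕ => 3 ≤ N ∧ (N : ℝ) / Real.log N ^ K < SS K N) : Finset ℕ) : Set ℕ) := by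
      rintro N ⟨⟨h1, h2⟩, h3⟩
      rw [Set.mem_Icc] at h3
      rw [mem_coe, mem_filter, mem_Icc]
      refine ⟨h3, h1, ?_⟩
      have hmono : κ N ≤ K := hκmono h3.2
      have hlN := hl1 N h1
      have h4 : (N : ℝ) / Real.log N ^ K ≤ (N : ℝ) / Real.log N ^ (κ N) := by
        apply div_le_div_of_nonneg_left (Nat.cast_nonneg _) (by positivity)
        exact pow_le_pow_right₀ hlN hmono
      exact h4.trans_lt (h2.trans_le (SS_mono hmono (by omega)))
    have hcard : (({N | 3 ≤ N ∧ (N : ℝ) / Real.log N ^ (κ N) < SS (κ N) N} ∩ Set.Icc 1 X : Set ℕ).ncard : ℝ) ≤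
        (((Icc 1 X).filter (fun N : ℕ => 3 ≤ N ∧ (N : ℝ) / Real.log N ^ K < SS K N)).card : ℝ) := by
      have := Set.ncard_le_ncard hsub (finite_toSet _)
      rw [Set.ncard_coe_finset] at this
      exact_mod_cast this
    refine hcard.trans (hcount.trans ?_)
    rw [div_eq_mul_inv]
    apply mul_le_mul_of_nonneg_left _ (by linarith)
    rw [← Real.rpow_natCast, ← Real.rpow_neg (by linarith)]
    apply Real.rpow_le_rpow_of_exponent_le hL1
    have h5 : B ≤ (⌈B⌉₊ : ℝ) := Nat.le_ceil B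
    have h6 : ((⌈B⌉₊ + 1 : ℕ) : ℝ) ≤ (K : ℝ) := by exact_mod_cast hkK
    push_cast at h6
    linarith
  · intro θ hθ hθ1 A hA g hg
    -- choose `k`
    set k : ℕ := max (⌈A⌉₊ + 4) ⌈1 / (1 - θ)⌉₊ with hk
    have hk1 : ⌈A⌉₊ + 4 ≤ k := le_max_left _ _
    have hk2 : 1 / (1 - θ) ≤ (k : ℝ) := (Nat.le_ceil _).trans (by exact_mod_cast le_max_right _ _)
    have hθk : θ ≤ 1 - 1 / ((k : ℝ) + 2) := by
      have h1 : 0 < 1 - θ := by linarith
      have h2 : 1 / ((k : ℝ) + 2) ≤ 1 - θ := by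
        rw [div_le_iff₀ (by positivity)]
        rw [div_le_iff₀ h1] at hk2
        nlinarith
      linarith
    obtain ⟨X1, h1⟩ := ev_nat ((ev_log_ge 40).and (Filter.eventually_ge_atTop 3))
    refine ⟨max (max (Y k) k) X1, fun N hN hNE => ?_⟩
    obtain ⟨hL, hN3⟩ := h1 N (by exact_mod_cast (le_max_right _ _).trans hN)
    have hN3' : 3 ≤ N := by exact_mod_cast hN3
    have hkκ : k ≤ κ N := hκge k N ((le_max_left _ _).trans hN)
    set L := Real.log N with hLd
    have hL1 : 1 ≤ L := by linarith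
    have hL0 : 0 < L := by linarith
    have hNp : (0 : ℝ) < N := by linarith
    have hSS : SS k N ≤ N / L ^ k := by
      have h2 : SS (κ N) N ≤ (N : ℝ) / Real.log N ^ (κ N) := by
        by_contra hc
        push Not at hc
        exact hNE ⟨hN3', hc⟩
      refine (SS_mono hkκ (by omega)).trans (h2.trans ?_)
      apply div_le_div_of_nonneg_left hNp.le (by positivity)
      exact pow_le_pow_right₀ hL1 hkκ
    set Q := ⌊(N : ℝ) ^ θ⌋₊ with hQ
    have hQN : Q ≤ N := by
      have : (Q : ℝ) ≤ N := by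
        refine (Nat.floor_le (by positivity)).trans ?_
        calc (N : ℝ) ^ θ ≤ (N : ℝ) ^ (1 : ℝ) := Real.rpow_le_rpow_of_exponent_le (by linarith) hθ1.le
          _ = N := Real.rpow_one _
      exact_mod_cast this
    have hQ1 : 1 ≤ Q := by
      rw [hQ]
      apply Nat.le_floor
      rw [Nat.cast_one]
      exact Real.one_le_rpow (by linarith) hθ.le
    have hsumTM : ∑ q ∈ Icc 1 Q, TM q N ≤ N / L ^ k := by
      refine le_trans ?_ hSS
      unfold SS
      apply sum_le_sum_of_subset_of_nonneg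
      · apply Icc_subset_Icc_right
        apply Nat.floor_le_floor
        exact Real.rpow_le_rpow_of_exponent_le (by linarith) hθk
      · intro q _ _
        exact TM_nonneg q N
    have hTM1 : TM 1 N ≤ N / L ^ k := by
      refine le_trans ?_ hsumTM
      exact single_le_sum (f := fun q => TM q N) (fun q _ => TM_nonneg q N) (mem_Icc.2 ⟨le_rfl, hQ1⟩)
    -- final numerical step
    have hnum : 40 * L ^ 3 * (N / L ^ k) ≤ (N : ℝ) * L ^ (-A) := by
      have e1 : L ^ (-A) ≥ L ^ (-((⌈A⌉₊ : ℕ) : ℝ)) := by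
        apply Real.rpow_le_rpow_of_exponent_le hL1
        linarith [Nat.le_ceil A]
      have e2 : L ^ (-((⌈A⌉₊ : ℕ) : ℝ)) = 1 / L ^ ⌈A⌉₊ := by
        rw [Real.rpow_neg hL0.le, Real.rpow_natCast, one_div]
      have e3 : 40 * L ^ 3 * (N / L ^ k) ≤ 40 * L ^ 3 * (N / L ^ (⌈A⌉₊ + 4)) := by
        apply mul_le_mul_of_nonneg_left _ (by positivity)
        apply div_le_div_of_nonneg_left hNp.le (by positivity)
        exact pow_le_pow_right₀ hL1 hk1
      have e4 : 40 * L ^ 3 * (N / L ^ (⌈A⌉₊ + 4)) = (N * (1 / L ^ ⌈A⌉₊)) * (40 / L) := by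
        rw [pow_add]; field_simp
      calc 40 * L ^ 3 * (N / L ^ k) ≤ (N * (1 / L ^ ⌈A⌉₊)) * (40 / L) := e3.trans (le_of_eq e4)
        _ ≤ (N * (1 / L ^ ⌈A⌉₊)) * 1 := by
            apply mul_le_mul_of_nonneg_left _ (by positivity)
            rw [div_le_one hL0]; exact hL
        _ = N * (1 / L ^ ⌈A⌉₊) := mul_one _
        _ ≤ _ := by
            apply mul_le_mul_of_nonneg_left _ hNp.le
            rw [← e2]; exact e1
    constructor
    · unfold D
      have hterm : ∀ q ∈ (Icc 1 Q).filter (fun q => q.Coprime N),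
          |∑ n ∈ (Ico 1 N).filter (fun n => n ≡ N [MOD q]), vonMangoldt n * g (N - n) -
            1 / (Nat.totient q : ℝ) * ∑ n ∈ Ico 1 N, vonMangoldt n * g (N - n)| ≤
          4 * (1 + L) * TM q N + 1 / (Nat.totient q : ℝ) * (4 * (1 + L) * TM 1 N) := by
        intro q hq
        rw [mem_filter, mem_Icc] at hq
        refine (abs_sub _ _).trans ?_
        apply add_le_add
        · exact S_g_le' g hg q N (by omega)
        · rw [abs_mul, abs_of_nonneg (by positivity : (0 : ℝ) ≤ 1 / (Nat.totient q : ℝ))]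
          apply mul_le_mul_of_nonneg_left _ (by positivity)
          have h2 := S_g_le' g hg 1 N one_pos
          have e : (Ico 1 N).filter (fun n => n ≡ N [MOD 1]) = Ico 1 N := by
            apply filter_true_of_mem
            intro n _
            exact Nat.modEq_one
          rwa [e] at h2
      refine (sum_le_sum hterm).trans ?_
      have hnn : ∀ q ∈ Icc 1 Q, q ∉ (Icc 1 Q).filter (fun q => q.Coprime N) →
          0 ≤ 4 * (1 + L) * TM q N + 1 / (Nat.totient q : ℝ) * (4 * (1 + L) * TM 1 N) := by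
        intro q _ _
        have := TM_nonneg q N
        have := TM_nonneg 1 N
        positivity
      refine (sum_le_sum_of_subset_of_nonneg (filter_subset _ _) hnn).trans ?_
      rw [sum_add_distrib, ← mul_sum, ← sum_mul]
      have h2 := inv_phi_sum N Q hQN
      have hTM0 := TM_nonneg 1 N
      have hS0 : 0 ≤ ∑ q ∈ Icc 1 Q, TM q N := sum_nonneg fun q _ => TM_nonneg q N
      refine le_trans ?_ hnum
      have hNL : 0 ≤ N / L ^ k := by positivity
      calc 4 * (1 + L) * ∑ q ∈ Icc 1 Q, TM q N + (∑ q ∈ Icc 1 Q, 1 / (Nat.totient q : ℝ)) * (4 * (1 + L) * TM 1 N)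
          ≤ 4 * (1 + L) * (N / L ^ k) + (1 + L) ^ 2 * (4 * (1 + L) * (N / L ^ k)) := by
            apply add_le_add
            · exact mul_le_mul_of_nonneg_left hsumTM (by positivity)
            · apply mul_le_mul h2 _ (by positivity) (by positivity)
              exact mul_le_mul_of_nonneg_left hTM1 (by positivity)
        _ = (4 * (1 + L) * (1 + (1 + L) ^ 2)) * (N / L ^ k) := by ring
        _ ≤ 40 * L ^ 3 * (N / L ^ k) := by
            apply mul_le_mul_of_nonneg_right _ hNL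
            have h3 : 1 + L ≤ 2 * L := by linarith
            have h4 : (1 + L) ^ 2 ≤ 4 * L ^ 2 := by nlinarith
            have h5 : 1 + (1 + L) ^ 2 ≤ 5 * L ^ 2 := by nlinarith
            calc 4 * (1 + L) * (1 + (1 + L) ^ 2) ≤ 4 * (2 * L) * (5 * L ^ 2) := by
                  apply mul_le_mul _ h5 (by positivity) (by positivity)
                  linarith
              _ = 40 * L ^ 3 := by ring
    · unfold DMax
      have hterm : ∀ q ∈ Icc 1 Q, (range (N + 1)).sup' ⟨0, by simp⟩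
          (fun y => |∑ n ∈ (Ico 1 N).filter (fun n => n ≤ y ∧ n ≡ N [MOD q]), vonMangoldt n * g (N - n)|) ≤
          4 * (1 + L) * TM q N := by
        intro q hq
        rw [mem_Icc] at hq
        apply sup'_le
        intro y _
        exact S_g_le g hg q N y (by omega)
      refine (sum_le_sum hterm).trans ?_
      rw [← mul_sum]
      refine le_trans ?_ hnum
      have hNL : 0 ≤ N / L ^ k := by positivity
      calc 4 * (1 + L) * ∑ q ∈ Icc 1 Q, TM q N ≤ 4 * (1 + L) * (N / L ^ k) :=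
            mul_le_mul_of_nonneg_left hsumTM (by positivity)
        _ ≤ 40 * L ^ 3 * (N / L ^ k) := by
            apply mul_le_mul_of_nonneg_right _ hNL
            have h3 : 1 ≤ L ^ 2 := one_le_pow₀ hL1
            nlinarith

end Pool.Agent.Results.MP_e9eb55_nt.AlmostAll
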