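import Pool.Agent.X31.Z5
import Pool.Agent.X31.M3

/-!
# The diagonal Moebius-twisted Elliott-Halberstam sums at every level `N ^ κ`, `κ < 1`, with ARBITRARY fixed
# divisor-bounded weights instead of the absolute values, for the integers near
# the values of bilinear functions at pairs of integers with missing digits

`C₁`, `C₂` are sets of integers with `mᵢ` digits in base `bᵢ` whose digit at `bᵢ ^ j` is in `𝒟ᵢ j`, where the sets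
`𝒟ᵢ j` of allowed digits are arbitrary with at least TWO elements (for instance: the integers with the decimal digits
`0` and `1` only; the product of the two sets can be as thin as `N ^ ε`), `θ` is a real number and `g`, `h` are
ARBITRARY real functions. The values considered are `θ x y + g(x) + h(y)`; for `θ = 1`, `g = h = 0` these are the
products of two integers with missing digits.
Let `w(q)` be arbitrary real weights with `|w(q)| ≤ τ(q) ^ k` (for instance arbitrary signs). For almost all elements `n`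
of an ARBITRARY dense subset `M` of `C₁ × C₂`, ALL integers `s ≤ N` within `log ^ D N` of the value at `n`
satisfy the estimate `dEH(N ^ κ)` with the weights `w(q)` in the place of the absolute values, for both functions `g`.

The minimal real additive energy of these values is from `Pool.Agent.X31.M1` - `M3` (in this run); the theorem for families
of small energy is in `Pool.Agent.X31.Z1` - `Z5` (in this run); the bound for the Moebius exponential sums over the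
multiples of `q` is from `Pool.Agent.X25.DE` (helper25, `MP_e9eb55_nt.AlmostAll`).
-/

set_option autoImplicit false

namespace Pool.Agent.Results.MP_e9eb55_nt.BilinearWeights

open Finset ArithmeticFunction

/-- the integers `0 ≤ n < b ^ m` whose digit at `b ^ j` in base `b` is in `𝒟 j`, for all `j < m` -/
def Digits (b : ℕ) (𝒟 : ℕ → Finset ℕ) (m : ℕ) : Finset ℕ :=
  (range (b ^ m)).filter (fun n => ∀ j < m, n / b ^ j % b ∈ 𝒟 j)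

/-- the bilinear function `θ x y + g(x) + h(y)` -/
def bil (θ : ℝ) (g h : ℕ → ℝ) (n : ℕ × ℕ) : ℝ := θ * ((n.1 : ℝ) * n.2) + g n.1 + h n.2

/-- `M` is a set of pairs in `Digits b₁ 𝒟₁ m₁ × Digits b₂ 𝒟₂ m₂` with at least `1 / log ^ D N` of all these pairs, where
all sets `𝒟ᵢ j` of allowed digits have at least two elements and `m₁ ≤ l m₂`, `m₂ ≤ l m₁`; the number `θ` is at most
`log ^ D N` and at least `N / (b₁ ^ m₁ b₂ ^ m₂ log ^ D N)` in absolute value; `g` and `h` are ARBITRARY functions with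
`|bil θ g h| ≤ N` on `M`. -/
def Fam (b₁ b₂ l D N m₁ m₂ : ℕ) (𝒟₁ 𝒟₂ : ℕ → Finset ℕ) (θ : ℝ) (g h : ℕ → ℝ) (M : Finset (ℕ × ℕ)) : Prop :=
  (∀ j, 𝒟₁ j ⊆ range b₁ ∧ 2 ≤ (𝒟₁ j).card) ∧ (∀ j, 𝒟₂ j ⊆ range b₂ ∧ 2 ≤ (𝒟₂ j).card) ∧
  m₁ ≤ l * m₂ ∧ m₂ ≤ l * m₁ ∧
  |θ| ≤ Real.log N ^ D ∧ (N : ℝ) / Real.log N ^ D ≤ |θ| * ((b₁ : ℝ) ^ m₁ * (b₂ : ℝ) ^ m₂) ∧
  M ⊆ Digits b₁ 𝒟₁ m₁ ×ˢ Digits b₂ 𝒟₂ m₂ ∧
  ((Digits b₁ 𝒟₁ m₁).card * (Digits b₂ 𝒟₂ m₂).card : ℝ) / Real.log N ^ D ≤ M.card ∧ ∀ n ∈ M, |bil θ g h n| ≤ N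

/-- `g₁ = μ` -/
noncomputable def g1 (m : ℕ) : ℝ := ((moebius m : ℤ) : ℝ)

/-- `g₂ = μ log` -/
noncomputable def g2 (m : ℕ) : ℝ := ((moebius m : ℤ) : ℝ) * Real.log m

/-- the sum of the problem for the number `s`, with the weights `w q` in the place of the absolute values: the sum over
the `q ≤ Q` with `(q, s) = 1` of `w(q) (∑_(n < s, n ≡ s (q)) Λ(n) g(s - n) - (1 / φ(q)) ∑_(n < s) Λ(n) g(s - n))` -/
noncomputable def DW (g w : ℕ → ℝ) (Q s : ℕ) : ℝ :=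
  ∑ q ∈ (Icc 1 Q).filter (fun q => q.Coprime s), w q *
    (∑ n ∈ (Ico 1 s).filter (fun n => n ≡ s [MOD q]), vonMangoldt n * g (s - n) -
      1 / (Nat.totient q : ℝ) * ∑ n ∈ Ico 1 s, vonMangoldt n * g (s - n))

lemma dat_of {b₁ b₂ l D N m₁ m₂ : ℕ} {𝒟₁ 𝒟₂ : ℕ → Finset ℕ} {θ : ℝ} {g h : ℕ → ℝ} {M : Finset (ℕ × ℕ)}
    (H : Fam b₁ b₂ l D N m₁ m₂ 𝒟₁ 𝒟₂ θ g h M) : Pool.Agent.X31.CT.Dat2 b₁ b₂ l D N m₁ m₂ 𝒟₁ 𝒟₂ θ g h M :=
  ⟨H.1, H.2.1, H.2.2.1, H.2.2.2.1, H.2.2.2.2.1, H.2.2.2.2.2.1, H.2.2.2.2.2.2.1, H.2.2.2.2.2.2.2.1,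
    H.2.2.2.2.2.2.2.2⟩

/-- Let `b₁, b₂ ≥ 2` and `l ≥ 1` be integers. Let `k`, `D`, `U`, `A` be natural numbers and `0 < κ < 1`. There is an `N₀` such that for
all `N ≥ N₀`, all numbers `m₁`, `m₂` of digits, ALL sets `𝒟ᵢ j` of allowed
digits, all `θ`, ALL functions `g`, `h` and all sets `M` of pairs with `Fam b₁ b₂ l D N m₁ m₂ 𝒟₁ 𝒟₂ θ g h M`, and
ALL weights `w` with `|w q| ≤ τ(q) ^ k`: for all but at most `#M / log ^ U N` elements `n` of `M`, ALL integers `s` with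
`1 ≤ s ≤ N` and `|s - bil θ g h n| ≤ log ^ D N`, and both `G = g₁`, `G = g₂`, the sum `DW G w ⌊N ^ κ⌋ s` is at most
`N / log ^ A N` in absolute value. -/
theorem result (b₁ b₂ l : ℕ) (hb₁ : 2 ≤ b₁) (hb₂ : 2 ≤ b₂) (hl : 1 ≤ l) (k D U A : ℕ) (κ : ℝ)
    (hκ0 : 0 < κ) (hκ1 : κ < 1) :
    ∃ N₀ : ℕ, ∀ N : ℕ, N₀ ≤ N →
      ∀ (m₁ m₂ : ℕ) (𝒟₁ 𝒟₂ : ℕ → Finset ℕ) (θ : ℝ) (g h : ℕ → ℝ) (M : Finset (ℕ × ℕ)),
      Fam b₁ b₂ l D N m₁ m₂ 𝒟₁ 𝒟₂ θ g h M →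
      ∀ w : ℕ → ℝ, (∀ q, 1 ≤ q → |w q| ≤ (q.divisors.card : ℝ) ^ k) →
      ∃ E : Finset (ℕ × ℕ), (E.card : ℝ) ≤ M.card / Real.log N ^ U ∧ ∀ n ∈ M, n ∉ E →
        ∀ s : ℕ, 1 ≤ s → s ≤ N → |(s : ℝ) - bil θ g h n| ≤ Real.log N ^ D →
          ∀ G : ℕ → ℝ, (G = g1 ∨ G = g2) → |DW G w ⌊(N : ℝ) ^ κ⌋₊ s| ≤ N / Real.log N ^ A := by
  obtain ⟨N₀, h0⟩ := (Pool.Agent.X31.Sch_bil hb₁ hb₂ l hl).dEH k D U A κ hκ0 hκ1
  refine ⟨N₀, fun N hN m₁ m₂ 𝒟₁ 𝒟₂ θ g h M hfam w hw => ?_⟩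
  obtain ⟨E, hE1, hE2⟩ := h0 N hN M (fun n => bil θ g h n) ⟨m₁, m₂, 𝒟₁, 𝒟₂, θ, g, h, dat_of hfam, fun _ => rfl⟩ w hw
  refine ⟨E, hE1, fun n hn hnE s h1 h2 h3 g' hg => ?_⟩
  obtain ⟨x1, x2⟩ := hE2 n hn hnE s h1 h2 h3
  rcases hg with rfl | rfl
  · exact x1
  · exact x2

end Pool.Agent.Results.MP_e9eb55_nt.BilinearWeights
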