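import Mathlib
import Pool.Agent.TH935.LP.L1

/-! For each individual `N` the main term in the diagonal Moebius-twisted Elliott-Halberstam sum is redundant:
the sum with it and the sum without it have the same size up to powers of `log N`; and `dEH(N^θ)` for one `θ > 0`
already bounds the correlation of the primes with the Moebius function along `n + m = N`. -/

set_option autoImplicit false

namespace Pool.Agent.Results.MP_e9eb55_nt.MainTermRedundant
open Finset ArithmeticFunction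
open Pool.Agent.TH935.LD (tau_pow_div)

/-- `g₁ = μ` -/
noncomputable def g1 (m : ℕ) : ℝ := ((moebius m : ℤ) : ℝ)

/-- `g₂ = μ log` -/
noncomputable def g2 (m : ℕ) : ℝ := ((moebius m : ℤ) : ℝ) * Real.log m

/-- `D_g(N;θ)`, as in the problem -/
noncomputable def D (g : ℕ → ℝ) (N : ℕ) (θ : ℝ) : ℝ :=
  ∑ q ∈ (Icc 1 ⌊(N : ℝ) ^ θ⌋₊).filter (fun q => q.Coprime N),
    |∑ n ∈ (Ico 1 N).filter (fun n => n ≡ N [MOD q]), vonMangoldt n * g (N - n) -
      1 / (Nat.totient q : ℝ) * ∑ n ∈ Ico 1 N, vonMangoldt n * g (N - n)|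

/-- the same sum without the main term -/
noncomputable def D0 (g : ℕ → ℝ) (N : ℕ) (θ : ℝ) : ℝ :=
  ∑ q ∈ (Icc 1 ⌊(N : ℝ) ^ θ⌋₊).filter (fun q => q.Coprime N),
    |∑ n ∈ (Ico 1 N).filter (fun n => n ≡ N [MOD q]), vonMangoldt n * g (N - n)|

/-- the complete correlation `∑_{n<N} Λ(n) g(N-n)` -/
noncomputable def S (g : ℕ → ℝ) (N : ℕ) : ℝ := ∑ n ∈ Ico 1 N, vonMangoldt n * g (N - n)

/-- the statement dEH(N^θ) of the problem -/
def dEH (θ : ℝ) : Prop := ∀ A : ℝ, 0 < A → ∀ g : ℕ → ℝ, (g = g1 ∨ g = g2) →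
  ∃ (C : ℝ) (N₀ : ℕ), ∀ N : ℕ, N₀ ≤ N → D g N θ ≤ C * N * Real.log N ^ (-A)

lemma ev_nat {p : ℝ → Prop} (h : ∀ᶠ x in Filter.atTop, p x) : ∃ n0 : ℕ, ∀ x : ℝ, n0 ≤ x → p x := by
  rw [Filter.eventually_atTop] at h
  obtain ⟨a, ha⟩ := h
  exact ⟨⌈a⌉₊, fun x hx => ha x ((Nat.le_ceil a).trans hx)⟩

lemma ev_log_ge (c : ℝ) : ∀ᶠ x : ℝ in Filter.atTop, c ≤ Real.log x :=
  Real.tendsto_log_atTop.eventually_ge_atTop c

lemma ev_pow_le (U : ℕ) (δ : ℝ) (hδ : 0 < δ) (c : ℝ) : ∀ᶠ x : ℝ in Filter.atTop, c * Real.log x ^ U ≤ x ^ δ := by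
  have h1 := (isLittleO_log_rpow_rpow_atTop (r := (U : ℝ)) (s := δ) hδ).def (c := 1 / (|c| + 1)) (by positivity)
  filter_upwards [h1, ev_log_ge 1, Filter.eventually_ge_atTop 1] with x h2 h3 h4
  rw [Real.rpow_natCast, Real.norm_of_nonneg (by positivity), Real.norm_of_nonneg (by positivity)] at h2
  have h5 : (|c| + 1) * Real.log x ^ U ≤ x ^ δ := by
    rw [div_mul_eq_mul_div, one_mul, le_div_iff₀ (by positivity)] at h2
    linarith
  refine le_trans ?_ h5
  apply mul_le_mul_of_nonneg_right _ (by positivity)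
  linarith [le_abs_self c]

/-- the least prime not dividing `N` is `≤ 4 log N` -/
lemma small_prime : ∃ N₀ : ℕ, ∀ N : ℕ, N₀ ≤ N → ∃ p : ℕ, p.Prime ∧ ¬ p ∣ N ∧ (p : ℝ) ≤ 4 * Real.log N := by
  obtain ⟨m1, e1⟩ := ev_nat ((ev_pow_le 1 (1 / 4) (by norm_num) 100).and (Filter.eventually_ge_atTop 100))
  obtain ⟨m2, e2⟩ := ev_nat ((ev_log_ge ((m1 : ℝ) + 100)).and (Filter.eventually_ge_atTop 3))
  refine ⟨m2, fun N hN => ?_⟩
  obtain ⟨a1, a2⟩ := e2 N (by exact_mod_cast hN)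
  set L := Real.log N with hL
  have hL100 : 100 ≤ L := by
    have : (0 : ℝ) ≤ m1 := Nat.cast_nonneg _
    linarith
  set z : ℕ := ⌊4 * L⌋₊ with hz
  have hz1 : (z : ℝ) ≤ 4 * L := Nat.floor_le (by linarith)
  have hz2 : 4 * L < z + 1 := Nat.lt_floor_add_one _
  have hzm : (m1 : ℝ) ≤ z := by
    have : (0 : ℝ) ≤ m1 := Nat.cast_nonneg _
    linarith
  obtain ⟨b1, b2⟩ := e1 z hzm
  have hz0 : (0 : ℝ) < z := by linarith
  rw [pow_one] at b1
  have hlz : 0 < Real.log z := Real.log_pos (by linarith)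
  have hθ := Chebyshev.theta_ge z
  have hs : (z : ℝ) ^ (1 / 4 : ℝ) * √(z : ℝ) ≤ z := by
    rw [Real.sqrt_eq_rpow, ← Real.rpow_add hz0]
    calc (z : ℝ) ^ (1 / 4 + 1 / 2 : ℝ) ≤ (z : ℝ) ^ (1 : ℝ) :=
          Real.rpow_le_rpow_of_exponent_le (by linarith) (by norm_num)
      _ = z := Real.rpow_one _
  have h1 : 100 * Real.log z * √(z : ℝ) ≤ z :=
    (mul_le_mul_of_nonneg_right b1 (Real.sqrt_nonneg _)).trans hs
  have h2 : Real.log ((z : ℝ) + 1) ≤ 2 * Real.log z := by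
    have : Real.log ((z : ℝ) + 1) ≤ Real.log ((z : ℝ) ^ 2) := Real.log_le_log (by linarith) (by nlinarith)
    rwa [Real.log_pow] at this
  have hs1 : 1 ≤ √(z : ℝ) := by
    apply Real.le_sqrt_of_sq_le; linarith
  have h3 : Real.log z ≤ Real.log z * √(z : ℝ) := le_mul_of_one_le_right hlz.le hs1
  have hlog2 : (0.69 : ℝ) < Real.log 2 := by linarith [Real.log_two_gt_d9]
  have hbig : L < Chebyshev.theta z := by
    have h4 : (z : ℝ) * 0.69 ≤ z * Real.log 2 := by nlinarith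
    have h5 : 2 * √(z : ℝ) * Real.log z ≤ 0.02 * z := by nlinarith
    have h6 : Real.log ((z : ℝ) + 1) ≤ 0.02 * z := by nlinarith
    nlinarith
  by_contra hc
  push Not at hc
  have hdvd : primorial z ∣ N := by
    unfold primorial
    apply Finset.prod_primes_dvd
    · intro p hp
      rw [mem_filter] at hp
      exact hp.2.prime
    · intro p hp
      rw [mem_filter, mem_range] at hp
      by_contra hnd
      have h4 := hc p hp.2 hnd
      have h5 : (p : ℝ) ≤ z := by exact_mod_cast (by omega : p ≤ z)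
      linarith
  have hNpos : 0 < N := by
    have : (0 : ℝ) < N := by linarith
    exact_mod_cast this
  have h7 : primorial z ≤ N := Nat.le_of_dvd hNpos hdvd
  rw [Chebyshev.theta_eq_log_primorial, Nat.floor_natCast] at hbig
  have h8 : Real.log (primorial z) ≤ L :=
    Real.log_le_log (by exact_mod_cast primorial_pos z) (by exact_mod_cast h7)
  linarith

lemma inv_phi_sum (X : ℕ) (Q : ℕ) (h : Q ≤ X) : ∑ q ∈ Icc 1 Q, 1 / (Nat.totient q : ℝ) ≤ (1 + Real.log X) ^ 2 := by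
  have h2 := tau_pow_div 1 X
  simp only [pow_one] at h2
  have h3 : ∑ q ∈ Icc 1 Q, 1 / (Nat.totient q : ℝ) ≤ ∑ q ∈ Icc 1 X, (q.divisors.card : ℝ) / q := by
    refine (sum_le_sum_of_subset_of_nonneg (Icc_subset_Icc_right h) (fun _ _ _ => by positivity)).trans ?_
    refine sum_le_sum fun q hq => ?_
    rw [mem_Icc] at hq
    have h1 : q ≤ q.divisors.card * Nat.totient q := by
      calc q = ∑ d ∈ q.divisors, Nat.totient d := (Nat.sum_totient q).symm
        _ ≤ ∑ d ∈ q.divisors, Nat.totient q := by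
            apply sum_le_sum
            intro d hd
            exact Nat.le_of_dvd (Nat.totient_pos.2 (by omega)) (Nat.totient_dvd_of_dvd (Nat.dvd_of_mem_divisors hd))
        _ = _ := by rw [sum_const, smul_eq_mul]
    have hφ : (0 : ℝ) < Nat.totient q := by exact_mod_cast Nat.totient_pos.2 (by omega)
    have hq0 : (0 : ℝ) < q := by exact_mod_cast (by omega : 0 < q)
    rw [div_le_div_iff₀ hφ hq0, one_mul]
    exact_mod_cast h1
  exact h3.trans h2

lemma g_zero (g : ℕ → ℝ) (hg : g = g1 ∨ g = g2) (m p : ℕ) (hp : p.Prime) (h : p * p ∣ m) : g m = 0 := by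
  have h1 : moebius m = 0 := by
    apply moebius_eq_zero_of_not_squarefree
    intro hs
    exact hp.one_lt.ne' (Nat.isUnit_iff.1 (hs p h))
  rcases hg with rfl | rfl
  · unfold g1; rw [h1]; simp
  · unfold g2; rw [h1]; simp

/-- the pointwise comparison -/
theorem pointwise (θ : ℝ) (h0 : 0 < θ) (h1 : θ < 1) : ∃ N₀ : ℕ, ∀ N : ℕ, N₀ ≤ N → ∀ g : ℕ → ℝ, (g = g1 ∨ g = g2) →
    |S g N| ≤ 16 * Real.log N ^ 2 * D g N θ ∧
    D0 g N θ ≤ 100 * Real.log N ^ 4 * D g N θ ∧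
    D g N θ ≤ 5 * Real.log N ^ 2 * D0 g N θ := by
  obtain ⟨m1, hp⟩ := small_prime
  obtain ⟨m2, e2⟩ := ev_nat ((ev_log_ge 1).and ((ev_pow_le 2 θ h0 16).and (Filter.eventually_ge_atTop 3)))
  refine ⟨max m1 m2, fun N hN g hg => ?_⟩
  obtain ⟨p, pp, hpN, hple⟩ := hp N ((le_max_left _ _).trans hN)
  obtain ⟨hL1, hpow, hN3⟩ := e2 N (by exact_mod_cast (le_max_right _ _).trans hN)
  set L := Real.log N with hL
  have hL0 : 0 < L := by linarith
  have hNp : (0 : ℝ) < N := by linarith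
  set Q := ⌊(N : ℝ) ^ θ⌋₊ with hQ
  have hQN : Q ≤ N := by
    have : (Q : ℝ) ≤ N := by
      refine (Nat.floor_le (by positivity)).trans ?_
      calc (N : ℝ) ^ θ ≤ (N : ℝ) ^ (1 : ℝ) := Real.rpow_le_rpow_of_exponent_le (by linarith) h1.le
        _ = N := Real.rpow_one _
    exact_mod_cast this
  have hpp : ((p * p : ℕ) : ℝ) ≤ 16 * L ^ 2 := by
    push_cast
    have hp0 : (0 : ℝ) ≤ p := Nat.cast_nonneg _
    nlinarith
  have hppQ : p * p ≤ Q := Nat.le_floor (hpp.trans hpow)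
  have hppos : 0 < p * p := Nat.mul_pos pp.pos pp.pos
  have hcop : (p * p).Coprime N := Nat.Coprime.mul_left ((Nat.Prime.coprime_iff_not_dvd pp).2 hpN) ((Nat.Prime.coprime_iff_not_dvd pp).2 hpN)
  have hmem : p * p ∈ (Icc 1 Q).filter (fun q => q.Coprime N) := by
    rw [mem_filter, mem_Icc]
    exact ⟨⟨hppos, hppQ⟩, hcop⟩
  have hDnn : 0 ≤ D g N θ := sum_nonneg fun _ _ => abs_nonneg _
  have hzero : ∑ n ∈ (Ico 1 N).filter (fun n => n ≡ N [MOD (p * p)]), vonMangoldt n * g (N - n) = 0 := by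
    apply sum_eq_zero
    intro n hn
    rw [mem_filter, mem_Ico] at hn
    rw [g_zero g hg (N - n) p pp ((Nat.modEq_iff_dvd' (by omega)).1 hn.2), mul_zero]
  have hS : |S g N| ≤ 16 * L ^ 2 * D g N θ := by
    have h2 : |∑ n ∈ (Ico 1 N).filter (fun n => n ≡ N [MOD (p * p)]), vonMangoldt n * g (N - n) -
      1 / (Nat.totient (p * p) : ℝ) * ∑ n ∈ Ico 1 N, vonMangoldt n * g (N - n)| ≤ D g N θ :=
      single_le_sum (f := fun q => |∑ n ∈ (Ico 1 N).filter (fun n => n ≡ N [MOD q]), vonMangoldt n * g (N - n) -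
        1 / (Nat.totient q : ℝ) * ∑ n ∈ Ico 1 N, vonMangoldt n * g (N - n)|) (fun _ _ => abs_nonneg _) hmem
    rw [hzero, zero_sub, abs_neg, abs_mul, abs_of_nonneg (by positivity : (0 : ℝ) ≤ 1 / (Nat.totient (p * p) : ℝ))] at h2
    have hφ0 : (0 : ℝ) < Nat.totient (p * p) := by exact_mod_cast Nat.totient_pos.2 hppos
    have hφ : (Nat.totient (p * p) : ℝ) ≤ 16 * L ^ 2 := le_trans (by exact_mod_cast Nat.totient_le _) hpp
    have h3 : |S g N| ≤ (Nat.totient (p * p) : ℝ) * D g N θ := by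
      unfold S
      rw [div_mul_eq_mul_div, one_mul, div_le_iff₀ hφ0] at h2
      linarith
    exact h3.trans (mul_le_mul_of_nonneg_right hφ hDnn)
  have hφsum : ∑ q ∈ (Icc 1 Q).filter (fun q => q.Coprime N), 1 / (Nat.totient q : ℝ) ≤ 4 * L ^ 2 := by
    refine (sum_le_sum_of_subset_of_nonneg (filter_subset _ _) (fun _ _ _ => by positivity)).trans ?_
    refine (inv_phi_sum N Q hQN).trans ?_
    have : 1 + Real.log N ≤ 2 * L := by rw [← hL]; linarith
    calc (1 + Real.log N) ^ 2 ≤ (2 * L) ^ 2 := pow_le_pow_left₀ (by rw [← hL]; linarith) this 2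
      _ = 4 * L ^ 2 := by ring
  refine ⟨hS, ?_, ?_⟩
  · have h2 : D0 g N θ ≤ D g N θ + (∑ q ∈ (Icc 1 Q).filter (fun q => q.Coprime N), 1 / (Nat.totient q : ℝ)) * |S g N| := by
      unfold D0 D
      rw [sum_mul, ← sum_add_distrib]
      refine sum_le_sum fun q _ => ?_
      have e1 : ∑ n ∈ (Ico 1 N).filter (fun n => n ≡ N [MOD q]), vonMangoldt n * g (N - n) =
        (∑ n ∈ (Ico 1 N).filter (fun n => n ≡ N [MOD q]), vonMangoldt n * g (N - n) -
        1 / (Nat.totient q : ℝ) * ∑ n ∈ Ico 1 N, vonMangoldt n * g (N - n)) +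
        1 / (Nat.totient q : ℝ) * S g N := by unfold S; ring
      conv_lhs => rw [e1]
      refine (abs_add_le _ _).trans ?_
      rw [abs_mul (1 / (Nat.totient q : ℝ)), abs_of_nonneg (by positivity : (0 : ℝ) ≤ 1 / (Nat.totient q : ℝ))]
    refine h2.trans ?_
    have h3 : (∑ q ∈ (Icc 1 Q).filter (fun q => q.Coprime N), 1 / (Nat.totient q : ℝ)) * |S g N| ≤
        4 * L ^ 2 * (16 * L ^ 2 * D g N θ) := mul_le_mul hφsum hS (abs_nonneg _) (by positivity)
    have h4 : 1 ≤ L ^ 4 := one_le_pow₀ hL1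
    nlinarith
  · have hQ1 : 1 ∈ (Icc 1 Q).filter (fun q => q.Coprime N) := by
      rw [mem_filter, mem_Icc]
      exact ⟨⟨le_rfl, by omega⟩, Nat.coprime_one_left N⟩
    have hS0 : |S g N| ≤ D0 g N θ := by
      have h2 : |∑ n ∈ (Ico 1 N).filter (fun n => n ≡ N [MOD 1]), vonMangoldt n * g (N - n)| ≤ D0 g N θ :=
        single_le_sum (f := fun q => |∑ n ∈ (Ico 1 N).filter (fun n => n ≡ N [MOD q]), vonMangoldt n * g (N - n)|)
          (fun _ _ => abs_nonneg _) hQ1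
      have e : (Ico 1 N).filter (fun n => n ≡ N [MOD 1]) = Ico 1 N := by
        apply filter_true_of_mem
        intro n _
        exact Nat.modEq_one
      rwa [e] at h2
    have hD0nn : 0 ≤ D0 g N θ := sum_nonneg fun _ _ => abs_nonneg _
    have h2 : D g N θ ≤ D0 g N θ + (∑ q ∈ (Icc 1 Q).filter (fun q => q.Coprime N), 1 / (Nat.totient q : ℝ)) * |S g N| := by
      unfold D0 D
      rw [sum_mul, ← sum_add_distrib]
      refine sum_le_sum fun q _ => ?_
      refine (abs_sub _ _).trans ?_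
      rw [abs_mul, abs_of_nonneg (by positivity : (0 : ℝ) ≤ 1 / (Nat.totient q : ℝ))]
      exact le_rfl
    refine h2.trans ?_
    have h3 : (∑ q ∈ (Icc 1 Q).filter (fun q => q.Coprime N), 1 / (Nat.totient q : ℝ)) * |S g N| ≤
        4 * L ^ 2 * D0 g N θ := mul_le_mul hφsum hS0 (abs_nonneg _) (by positivity)
    have h4 : 1 ≤ L ^ 2 := one_le_pow₀ hL1
    nlinarith

theorem result (θ : ℝ) (h0 : 0 < θ) (h1 : θ < 1) :
    -- for every large `N` separately: comparison of the sums with and without the main term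
    (∃ N₀ : ℕ, ∀ N : ℕ, N₀ ≤ N → ∀ g : ℕ → ℝ, (g = g1 ∨ g = g2) →
      |S g N| ≤ 16 * Real.log N ^ 2 * D g N θ ∧
      D0 g N θ ≤ 100 * Real.log N ^ 4 * D g N θ ∧
      D g N θ ≤ 5 * Real.log N ^ 2 * D0 g N θ) ∧
    -- the main term can be dropped in `dEH`
    (dEH θ ↔ ∀ A : ℝ, 0 < A → ∀ g : ℕ → ℝ, (g = g1 ∨ g = g2) →
      ∃ (C : ℝ) (N₀ : ℕ), ∀ N : ℕ, N₀ ≤ N → D0 g N θ ≤ C * N * Real.log N ^ (-A)) ∧
    -- `dEH` at one level implies strong cancellation in the complete sums, for every large `N`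
    (dEH θ → ∀ A : ℝ, 0 < A → ∀ g : ℕ → ℝ, (g = g1 ∨ g = g2) →
      ∃ (C : ℝ) (N₀ : ℕ), ∀ N : ℕ, N₀ ≤ N → |S g N| ≤ C * N * Real.log N ^ (-A)) := by
  obtain ⟨m1, hpt⟩ := pointwise θ h0 h1
  obtain ⟨m2, e2⟩ := ev_nat ((ev_log_ge 1).and (Filter.eventually_ge_atTop 3))
  have hconv : ∀ (k : ℕ) (c : ℝ), 0 ≤ c → ∀ (F G : ℕ → ℝ), (∀ N, m1 ≤ N → F N ≤ c * Real.log N ^ k * G N) →
      ∀ A : ℝ, (∃ (C : ℝ) (N₀ : ℕ), ∀ N : ℕ, N₀ ≤ N → G N ≤ C * N * Real.log N ^ (-(A + k))) →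
      ∃ (C : ℝ) (N₀ : ℕ), ∀ N : ℕ, N₀ ≤ N → F N ≤ C * N * Real.log N ^ (-A) := by
    intro k c hc F G hFG A ⟨C, N₀, h⟩
    refine ⟨c * C, max (max N₀ m1) m2, fun N hN => ?_⟩
    have a1 := h N ((le_max_left _ _).trans ((le_max_left _ _).trans hN))
    have a2 := hFG N ((le_max_right _ _).trans ((le_max_left _ _).trans hN))
    obtain ⟨hL, hN3⟩ := e2 N (by exact_mod_cast (le_max_right _ _).trans hN)
    have hL0 : 0 < Real.log N := by linarith
    refine a2.trans ?_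
    calc c * Real.log N ^ k * G N ≤ c * Real.log N ^ k * (C * N * Real.log N ^ (-(A + k))) :=
          mul_le_mul_of_nonneg_left a1 (by positivity)
      _ = c * C * N * (Real.log N ^ k * Real.log N ^ (-(A + k))) := by ring
      _ = c * C * N * Real.log N ^ (-A) := by
          rw [← Real.rpow_natCast (Real.log N) k, ← Real.rpow_add hL0]
          congr 2
          ring
  refine ⟨⟨m1, hpt⟩, ⟨?_, ?_⟩, ?_⟩
  · intro h A hA g hg
    exact hconv 4 100 (by norm_num) _ _ (fun N hN => (hpt N hN g hg).2.1) A (h (A + (4 : ℕ)) (by positivity) g hg)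
  · intro h A hA g hg
    exact hconv 2 5 (by norm_num) _ _ (fun N hN => (hpt N hN g hg).2.2) A (h (A + (2 : ℕ)) (by positivity) g hg)
  · intro h A hA g hg
    exact hconv 2 16 (by norm_num) _ _ (fun N hN => (hpt N hN g hg).1) A (h (A + (2 : ℕ)) (by positivity) g hg)

end Pool.Agent.Results.MP_e9eb55_nt.MainTermRedundant
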