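import Pool.Agent.X31.Z5
import Pool.Agent.X31.S2

/-!
# The diagonal Moebius-twisted Elliott-Halberstam sums at every level `N ^ κ`, `κ < 1`, with ARBITRARY fixed
# divisor-bounded weights instead of the absolute values, for the integers near
# the values of polynomials at integers with missing digits

`f` is an arbitrary real polynomial of degree `d ≥ 2` (only the size of the leading coefficient is restricted), `C` is the
set of the integers with `m` digits in base `b` whose digit at `b ^ j` is in `𝒟 j`, where the sets `𝒟 j` of allowed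
digits are arbitrary with at least TWO elements (for instance: the integers with the decimal digits `0` and `1` only;
such sets can be as thin as `N ^ ε`).
Let `w(q)` be arbitrary real weights with `|w(q)| ≤ τ(q) ^ k` (for instance arbitrary signs). For almost all elements `n`
of an ARBITRARY dense subset `M` of `C`, ALL integers `s ≤ N` within `log ^ D N` of the value at `n`
satisfy the estimate `dEH(N ^ κ)` with the weights `w(q)` in the place of the absolute values, for both functions `g`.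

The minimal real additive energy of the values of polynomials at the integers with missing digits is from
`Pool.Agent.X31.K1` - `K9` (in this run); the theorem for families
of small energy is in `Pool.Agent.X31.Z1` - `Z5` (in this run); the bound for the Moebius exponential sums over the
multiples of `q` is from `Pool.Agent.X25.DE` (helper25, `MP_e9eb55_nt.AlmostAll`).
-/

set_option autoImplicit false

namespace Pool.Agent.Results.MP_e9eb55_nt.MissingDigitWeights

open Finset ArithmeticFunction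
open scoped Polynomial

/-- the integers `0 ≤ n < b ^ m` whose digit at `b ^ j` in base `b` is in `𝒟 j`, for all `j < m` -/
def Digits (b : ℕ) (𝒟 : ℕ → Finset ℕ) (m : ℕ) : Finset ℕ :=
  (range (b ^ m)).filter (fun n => ∀ j < m, n / b ^ j % b ∈ 𝒟 j)

/-- `M` is a subset with at least `#(Digits b 𝒟 m) / log ^ D N` elements of the set `Digits b 𝒟 m`, where all sets `𝒟 j`
of allowed digits have at least two elements; `f` is a real polynomial of degree at most `d`, the coefficient of `x ^ d`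
is at most `log ^ D N` and at least `N / (b ^ (d m) log ^ D N)` in absolute value, and `|f| ≤ N` on `M`. -/
def Fam (b d D N m : ℕ) (𝒟 : ℕ → Finset ℕ) (f : ℝ[X]) (M : Finset ℕ) : Prop :=
  (∀ j, 𝒟 j ⊆ range b ∧ 2 ≤ (𝒟 j).card) ∧
  f.natDegree ≤ d ∧ |f.coeff d| ≤ Real.log N ^ D ∧ (N : ℝ) / Real.log N ^ D ≤ |f.coeff d| * (b : ℝ) ^ (d * m) ∧
  M ⊆ Digits b 𝒟 m ∧ ((Digits b 𝒟 m).card : ℝ) / Real.log N ^ D ≤ M.card ∧ ∀ n ∈ M, |f.eval (n : ℝ)| ≤ N

/-- `g₁ = μ` -/
noncomputable def g1 (m : ℕ) : ℝ := ((moebius m : ℤ) : ℝ)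

/-- `g₂ = μ log` -/
noncomputable def g2 (m : ℕ) : ℝ := ((moebius m : ℤ) : ℝ) * Real.log m

/-- the sum of the problem for the number `s`, with the weights `w q` in the place of the absolute values: the sum over
the `q ≤ Q` with `(q, s) = 1` of `w(q) (∑_(n < s, n ≡ s (q)) Λ(n) g(s - n) - (1 / φ(q)) ∑_(n < s) Λ(n) g(s - n))` -/
noncomputable def DW (g w : ℕ → ℝ) (Q s : ℕ) : ℝ :=
  ∑ q ∈ (Icc 1 Q).filter (fun q => q.Coprime s), w q *
    (∑ n ∈ (Ico 1 s).filter (fun n => n ≡ s [MOD q]), vonMangoldt n * g (s - n) -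
      1 / (Nat.totient q : ℝ) * ∑ n ∈ Ico 1 s, vonMangoldt n * g (s - n))

lemma dat_of {b d D N m : ℕ} {𝒟 : ℕ → Finset ℕ} {f : ℝ[X]} {M : Finset ℕ} (h : Fam b d D N m 𝒟 f M) :
    Pool.Agent.X31.CT.Dat b d D N m 𝒟 f M :=
  ⟨h.1, h.2.1, h.2.2.1, h.2.2.2.1, h.2.2.2.2.1, h.2.2.2.2.2.1, h.2.2.2.2.2.2⟩

/-- Let `b, d ≥ 2` be integers. Let `k`, `D`, `U`, `A` be natural numbers and `0 < κ < 1`. There is an `N₀` such that for
all `N ≥ N₀`, all numbers `m` of digits, ALL sets `𝒟 j` of allowed digits, ALL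
real polynomials `f` and all sets `M` with `Fam b d D N m 𝒟 f M`, and
ALL weights `w` with `|w q| ≤ τ(q) ^ k`: for all but at most `#M / log ^ U N` elements `n` of `M`, ALL integers `s` with
`1 ≤ s ≤ N` and `|s - f.eval (n : ℝ)| ≤ log ^ D N`, and both `G = g₁`, `G = g₂`, the sum `DW G w ⌊N ^ κ⌋ s` is at most
`N / log ^ A N` in absolute value. -/
theorem result (b d : ℕ) (hb : 2 ≤ b) (hd : 2 ≤ d) (k D U A : ℕ) (κ : ℝ)
    (hκ0 : 0 < κ) (hκ1 : κ < 1) :
    ∃ N₀ : ℕ, ∀ N : ℕ, N₀ ≤ N →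
      ∀ (m : ℕ) (𝒟 : ℕ → Finset ℕ) (f : ℝ[X]) (M : Finset ℕ), Fam b d D N m 𝒟 f M →
      ∀ w : ℕ → ℝ, (∀ q, 1 ≤ q → |w q| ≤ (q.divisors.card : ℝ) ^ k) →
      ∃ E : Finset ℕ, (E.card : ℝ) ≤ M.card / Real.log N ^ U ∧ ∀ n ∈ M, n ∉ E →
        ∀ s : ℕ, 1 ≤ s → s ≤ N → |(s : ℝ) - f.eval (n : ℝ)| ≤ Real.log N ^ D →
          ∀ G : ℕ → ℝ, (G = g1 ∨ G = g2) → |DW G w ⌊(N : ℝ) ^ κ⌋₊ s| ≤ N / Real.log N ^ A := by
  obtain ⟨N₀, h0⟩ := (Pool.Agent.X31.Sch_dg hb hd).dEH k D U A κ hκ0 hκ1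
  refine ⟨N₀, fun N hN m 𝒟 f M hfam w hw => ?_⟩
  obtain ⟨E, hE1, hE2⟩ := h0 N hN M (fun n => f.eval (n : ℝ)) ⟨m, 𝒟, f, dat_of hfam, fun _ => rfl⟩ w hw
  refine ⟨E, hE1, fun n hn hnE s h1 h2 h3 g' hg => ?_⟩
  obtain ⟨x1, x2⟩ := hE2 n hn hnE s h1 h2 h3
  rcases hg with rfl | rfl
  · exact x1
  · exact x2

end Pool.Agent.Results.MP_e9eb55_nt.MissingDigitWeights
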